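import Pool.Agent.E8helper51.ZB3.Mat
import Pool.Agent.E8helper51.ZB3.PP
import Pool.Agent.E8helper2.ZB.Stm5

/-!
# Lattices containing sign changes and even permutations
-/

set_option autoImplicit false

namespace Pool.Agent.E8helper51.ZB3

open Module Matrix Pool.Agent.E8helper2.ZB

theorem pp : S_PP := by
  intro K _ p hp hp0 hK V _ _ _ A _ _ ρ hpow hinj
  exact card_dvd_p_pow hp hp0 hK ρ hpow hinj

section perm

/-- rotation of the blocks -/
def rot {a : ℕ} : (Fin a → Multiplicative (ZMod 3)) →* Equiv.Perm (Fin a × ZMod 3) where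
  toFun t :=
    { toFun := fun x => (x.1, (t x.1).toAdd + x.2)
      invFun := fun x => (x.1, -(t x.1).toAdd + x.2)
      left_inv := fun x => by simp
      right_inv := fun x => by simp }
  map_one' := by
    ext x <;> simp
  map_mul' s t := by
    ext x <;> simp [add_assoc]

theorem rot_apply {a : ℕ} (t : Fin a → Multiplicative (ZMod 3)) (x : Fin a × ZMod 3) :
    rot t x = (x.1, (t x.1).toAdd + x.2) := rfl

/-- the points of the blocks -/
def emb {n a : ℕ} (h : 3 * a ≤ n) : Fin a × ZMod 3 ↪ Fin n where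
  toFun x := ⟨3 * x.1.val + ZMod.val x.2, by
    have h1 := x.1.isLt
    have h2 : ZMod.val x.2 < 3 := ZMod.val_lt x.2
    omega⟩
  inj' x y hxy := by
    have h0 := congrArg Fin.val hxy
    simp only at h0
    have h1 : ZMod.val x.2 < 3 := ZMod.val_lt x.2
    have h2 : ZMod.val y.2 < 3 := ZMod.val_lt y.2
    have h3 : x.1.val = y.1.val := by omega
    have h4 : ZMod.val x.2 = ZMod.val y.2 := by omega
    exact Prod.ext (Fin.ext h3) (ZMod.val_injective 3 h4)

theorem emb_val {n a : ℕ} (h : 3 * a ≤ n) (x : Fin a × ZMod 3) :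
    (emb h x).val = 3 * x.1.val + ZMod.val x.2 := rfl

theorem emb_lt {n a : ℕ} (h : 3 * a ≤ n) (x : Fin a × ZMod 3) : (emb h x).val < 3 * a := by
  rw [emb_val]
  have h1 := x.1.isLt
  have h2 : ZMod.val x.2 < 3 := ZMod.val_lt x.2
  omega

/-- the permutations of the first `3 a` points -/
noncomputable def tau {n a : ℕ} (h : 3 * a ≤ n) :
    (Fin a → Multiplicative (ZMod 3)) →* Equiv.Perm (Fin n) :=
  (Equiv.Perm.viaEmbeddingHom (emb h)).comp rot

theorem tau_emb {n a : ℕ} (h : 3 * a ≤ n) (t : Fin a → Multiplicative (ZMod 3))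
    (x : Fin a × ZMod 3) : tau h t (emb h x) = emb h (rot t x) := by
  show Equiv.Perm.viaEmbeddingHom (emb h) (rot t) (emb h x) = _
  rw [Equiv.Perm.viaEmbeddingHom_apply, Equiv.Perm.viaEmbedding_apply]

theorem tau_fix {n a : ℕ} (h : 3 * a ≤ n) (t : Fin a → Multiplicative (ZMod 3))
    (i : Fin n) (hi : 3 * a ≤ i.val) : tau h t i = i := by
  show Equiv.Perm.viaEmbeddingHom (emb h) (rot t) i = _
  rw [Equiv.Perm.viaEmbeddingHom_apply, Equiv.Perm.viaEmbedding_apply_of_notMem]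
  rintro ⟨x, hx⟩
  have := emb_lt h x
  rw [hx] at this
  omega

theorem tau_pow {a : ℕ} (t : Fin a → Multiplicative (ZMod 3)) :
    t ^ 3 = 1 := by
  funext i
  rw [Pi.pow_apply, Pi.one_apply]
  have : ∀ x : ZMod 3, 3 • x = 0 := by decide
  exact Multiplicative.toAdd.injective (this _)

theorem tau_sign {n a : ℕ} (h : 3 * a ≤ n) (t : Fin a → Multiplicative (ZMod 3)) :
    Equiv.Perm.sign (tau h t) = 1 := by
  have h1 : Equiv.Perm.sign (tau h t) ^ 3 = 1 := by
    rw [← map_pow, ← map_pow, tau_pow t, map_one, map_one]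
  have h2 : Equiv.Perm.sign (tau h t) ^ 2 = 1 := by
    rw [Int.units_sq]
  rw [pow_succ, h2, one_mul] at h1
  exact h1

end perm

section grp

variable {F : Type} [Ring F] {n r : ℕ} {Γ : Subgroup (Matrix (Fin n) (Fin n) F)ˣ}
  {V : Type} [AddCommGroup V] [Module (ZMod 2) V] (ρ : Γ →* (V →ₗ[ZMod 2] V))

/-- the kernel as a subgroup of the units -/
def ker' : Subgroup (Matrix (Fin n) (Fin n) F)ˣ := ρ.ker.map Γ.subtype

theorem mem_ker' {x : (Matrix (Fin n) (Fin n) F)ˣ} : x ∈ ker' ρ ↔ ∃ h : x ∈ Γ, ρ ⟨x, h⟩ = 1 := by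
  constructor
  · rintro ⟨y, hy, rfl⟩
    exact ⟨y.2, hy⟩
  · rintro ⟨h, h1⟩
    exact ⟨⟨x, h⟩, h1, rfl⟩

theorem ker'_conj {x g : (Matrix (Fin n) (Fin n) F)ˣ} (hx : x ∈ ker' ρ) (hg : g ∈ Γ) :
    g * x * g⁻¹ ∈ ker' ρ := by
  rw [mem_ker'] at hx ⊢
  obtain ⟨h, h1⟩ := hx
  refine ⟨Γ.mul_mem (Γ.mul_mem hg h) (Γ.inv_mem hg), ?_⟩
  have e : (⟨g * x * g⁻¹, Γ.mul_mem (Γ.mul_mem hg h) (Γ.inv_mem hg)⟩ : Γ) =
      ⟨g, hg⟩ * ⟨x, h⟩ * ⟨g, hg⟩⁻¹ := rfl
  rw [e, map_mul, map_mul, h1, mul_one, ← map_mul, mul_inv_cancel, map_one]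

theorem dg_mem (hs : HasSym r Γ) (d : Fin n → ℕ) (h1 : Even (∑ i, d i))
    (h2 : ∀ i : Fin n, r ≤ i.val → d i = 0) : dg d ∈ Γ := hs.1 (dg d) d h1 h2 rfl

theorem pm_mem (hs : HasSym r Γ) (σ : Equiv.Perm (Fin n)) (h1 : Equiv.Perm.sign σ = 1)
    (h2 : ∀ i : Fin n, r ≤ i.val → σ i = i) : pm σ ∈ Γ := by
  refine hs.2 (pm σ) σ⁻¹ ?_ ?_ rfl
  · rw [Equiv.Perm.sign_inv, h1]
  · intro i hi
    rw [Equiv.Perm.inv_eq_iff_eq, h2 i hi]

/-- the exponents of the sign change at `x` and `y` -/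
def pr (x y : Fin n) : Fin n → ℕ := Pi.single x 1 + Pi.single y 1

theorem pr_apply (x y i : Fin n) :
    pr x y i = (if i = x then 1 else 0) + (if i = y then 1 else 0) := by
  rw [pr, Pi.add_apply, Pi.single_apply, Pi.single_apply]

theorem pr_comm (x y : Fin n) : pr x y = pr y x := by
  rw [pr, pr, add_comm]

theorem pr_sum (x y : Fin n) : Even (∑ i, pr x y i) := by
  have : ∑ i, pr x y i = 2 := by
    simp only [pr_apply, Finset.sum_add_distrib, Finset.sum_ite_eq', Finset.mem_univ, if_true]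
  rw [this]
  exact even_two

theorem pr_supp {x y : Fin n} (hx : x.val < r) (hy : y.val < r) :
    ∀ i : Fin n, r ≤ i.val → pr x y i = 0 := by
  intro i hi
  rw [pr_apply, if_neg, if_neg]
  · intro h; rw [h] at hi; omega
  · intro h; rw [h] at hi; omega

theorem pr_perm (σ : Equiv.Perm (Fin n)) (x y : Fin n) :
    (fun i => pr x y (σ⁻¹ i)) = pr (σ x) (σ y) := by
  funext i
  rw [pr_apply, pr_apply]
  simp only [Equiv.Perm.inv_eq_iff_eq]

/-- transitivity -/
theorem pr_trans {x y z : Fin n} (h1 : dg (pr x y) ∈ ker' ρ) (h2 : dg (pr y z) ∈ ker' ρ) :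
    dg (pr x z) ∈ ker' ρ := by
  have h3 := (ker' ρ).mul_mem h1 h2
  rw [← dg_add] at h3
  have e : pr x y + pr y z = pr x z + (2 : ℕ) • Pi.single y 1 := by
    funext i
    simp only [pr, Pi.add_apply, Pi.smul_apply, smul_eq_mul]
    ring
  rw [e, dg_add, dg_even (d := (2 : ℕ) • Pi.single y 1), mul_one] at h3
  · exact h3
  · intro i
    rw [Pi.smul_apply, smul_eq_mul]
    exact even_two_mul _

theorem grp_main (hr : r ≤ n) (hs : HasSym r Γ) [FiniteDimensional (ZMod 2) V]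
    (hdim : finrank (ZMod 2) V < 2 * (r / 3)) (hpp : S_PP) (d : Fin n → ℕ)
    (hd : Even (∑ i, d i)) (hd0 : ∀ i : Fin n, r ≤ i.val → d i = 0) : dg d ∈ ker' ρ := by
  classical
  obtain ⟨a, ha⟩ : ∃ a, a = r / 3 := ⟨_, rfl⟩
  have h3 : 3 * a ≤ n := by omega
  have htau : ∀ t : Fin a → Multiplicative (ZMod 3), pm (tau h3 t) ∈ Γ := by
    intro t
    refine pm_mem hs _ (tau_sign h3 t) (fun i hi => tau_fix h3 t i ?_)
    omega
  let θ : (Fin a → Multiplicative (ZMod 3)) →* Γ := (pm.comp (tau h3)).codRestrict Γ htau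
  have hni : ¬ Function.Injective (ρ.comp θ) := by
    intro hinj
    have key := hpp (ZMod 2) 3 Nat.prime_three (by decide) (by decide) V
      (Fin a → Multiplicative (ZMod 3)) (ρ.comp θ) (fun t => tau_pow t) hinj
    have hcard : Nat.card (Fin a → Multiplicative (ZMod 3)) = 3 ^ a := by
      rw [Nat.card_eq_fintype_card, Fintype.card_fun, Fintype.card_fin]
      congr 1
    rw [hcard, Nat.pow_dvd_pow_iff_le_right (by norm_num)] at key
    omega
  obtain ⟨t, ht, ht1⟩ : ∃ t, ρ (θ t) = 1 ∧ t ≠ 1 := by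
    by_contra hcon
    push Not at hcon
    apply hni
    rw [injective_iff_map_eq_one]
    intro t h
    exact hcon t h
  obtain ⟨j, hj⟩ : ∃ j, t j ≠ 1 := by
    by_contra hcon
    push Not at hcon
    exact ht1 (funext hcon)
  obtain ⟨s, hsd⟩ : ∃ s : ZMod 3, s = (t j).toAdd := ⟨_, rfl⟩
  have hs0 : s ≠ 0 := by
    intro h
    apply hj
    rw [h] at hsd
    exact Multiplicative.toAdd.injective hsd.symm
  obtain ⟨x0, hx0⟩ : ∃ x, x = emb h3 (j, 0) := ⟨_, rfl⟩
  obtain ⟨x1, hx1⟩ : ∃ x, x = emb h3 (j, s) := ⟨_, rfl⟩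
  obtain ⟨x2, hx2⟩ : ∃ x, x = emb h3 (j, s + s) := ⟨_, rfl⟩
  have e0 : tau h3 t x0 = x1 := by
    rw [hx0, tau_emb, rot_apply, hx1, hsd]; simp
  have e1 : tau h3 t x1 = x2 := by
    rw [hx1, tau_emb, rot_apply, hx2, hsd]
  have n02 : x0 ≠ x2 := by
    rw [hx0, hx2]
    intro h
    have h1 := (emb h3).injective h
    rw [Prod.mk.injEq] at h1
    have : ∀ s : ZMod 3, s ≠ 0 → (0 : ZMod 3) ≠ s + s := by decide
    exact this s hs0 h1.2
  have l0 : x0.val < r := by rw [hx0]; have := emb_lt h3 (j, 0); omega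
  have l1 : x1.val < r := by rw [hx1]; have := emb_lt h3 (j, s); omega
  have l2 : x2.val < r := by rw [hx2]; have := emb_lt h3 (j, s + s); omega
  have hker : pm (tau h3 t) ∈ ker' ρ := by
    rw [mem_ker']
    exact ⟨htau t, ht⟩
  -- the first relation
  have hm01 : dg (pr x0 x1) ∈ Γ := dg_mem hs _ (pr_sum _ _) (pr_supp l0 l1)
  have h02 : dg (pr x0 x2) ∈ ker' ρ := by
    have h4 : dg (pr x0 x1) * (pm (tau h3 t) * dg (pr x0 x1) * (pm (tau h3 t))⁻¹) ∈ ker' ρ := by
      have h5 : dg (pr x0 x1) * pm (tau h3 t) * (dg (pr x0 x1))⁻¹ ∈ ker' ρ := ker'_conj ρ hker hm01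
      have h6 := (ker' ρ).mul_mem h5 ((ker' ρ).inv_mem hker)
      have h7 : (dg (pr x0 x1) : (Matrix (Fin n) (Fin n) F)ˣ)⁻¹ = dg (pr x0 x1) := by
        rw [inv_eq_iff_mul_eq_one, ← dg_add]
        exact dg_even (fun i => ⟨pr x0 x1 i, rfl⟩)
      rw [h7] at h6
      simpa only [mul_assoc] using h6
    rw [pm_conj, pr_perm, e0, e1, ← dg_add] at h4
    have e : pr x0 x1 + pr x1 x2 = pr x0 x2 + (2 : ℕ) • Pi.single x1 1 := by
      funext i
      simp only [pr, Pi.add_apply, Pi.smul_apply, smul_eq_mul]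
      ring
    rw [e, dg_add, dg_even (d := (2 : ℕ) • Pi.single x1 1), mul_one] at h4
    · exact h4
    · intro i
      rw [Pi.smul_apply, smul_eq_mul]
      exact even_two_mul _
  -- all points are equivalent to `x0`
  have hall : ∀ z : Fin n, z.val < r → dg (pr x0 z) ∈ ker' ρ := by
    intro z hz
    by_cases hz0 : z = x0
    · rw [hz0]
      have : (dg (pr x0 x0) : (Matrix (Fin n) (Fin n) F)ˣ) = 1 :=
        dg_even (fun i => ⟨if i = x0 then 1 else 0, pr_apply _ _ _⟩)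
      rw [this]
      exact (ker' ρ).one_mem
    by_cases hz2 : z = x2
    · rw [hz2]; exact h02
    have hmem : pm (Equiv.swap x2 z * Equiv.swap x0 x2) ∈ Γ := by
      refine pm_mem hs _ ?_ ?_
      · rw [map_mul, Equiv.Perm.sign_swap (Ne.symm hz2), Equiv.Perm.sign_swap n02]
        decide
      · intro i hi
        have i0 : i ≠ x0 := fun h => by rw [h] at hi; omega
        have i2 : i ≠ x2 := fun h => by rw [h] at hi; omega
        have iz : i ≠ z := fun h => by rw [h] at hi; omega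
        rw [Equiv.Perm.mul_apply, Equiv.swap_apply_of_ne_of_ne i0 i2,
          Equiv.swap_apply_of_ne_of_ne i2 iz]
    have h4 := ker'_conj ρ h02 hmem
    rw [pm_conj, pr_perm] at h4
    have f0 : (Equiv.swap x2 z * Equiv.swap x0 x2) x0 = z := by
      rw [Equiv.Perm.mul_apply, Equiv.swap_apply_left, Equiv.swap_apply_left]
    have f2 : (Equiv.swap x2 z * Equiv.swap x0 x2) x2 = x0 := by
      rw [Equiv.Perm.mul_apply, Equiv.swap_apply_right,
        Equiv.swap_apply_of_ne_of_ne n02 (fun h => hz0 h.symm)]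
    rw [f0, f2, pr_comm] at h4
    exact h4
  -- the general sign change
  have hprod : ∀ S : Finset (Fin n), dg (∑ i ∈ S, d i • pr x0 i) ∈ ker' ρ := by
    intro S
    induction S using Finset.induction_on with
    | empty => rw [Finset.sum_empty, dg_zero]; exact (ker' ρ).one_mem
    | insert i S hi ih =>
      rw [Finset.sum_insert hi, dg_add]
      refine (ker' ρ).mul_mem ?_ ih
      by_cases hir : r ≤ i.val
      · rw [hd0 i hir, zero_smul, dg_zero]; exact (ker' ρ).one_mem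
      · rw [dg_nsmul]
        exact (ker' ρ).pow_mem (hall i (by omega)) _
  have h5 := hprod Finset.univ
  have e : ∑ i, d i • pr x0 i = d + (∑ i, d i) • Pi.single x0 1 := by
    funext k
    rw [Finset.sum_apply, Pi.add_apply, Pi.smul_apply]
    simp only [Pi.smul_apply, pr_apply, smul_eq_mul, mul_add, Finset.sum_add_distrib,
      Pi.single_apply, mul_ite, mul_one, mul_zero, Finset.sum_ite_eq, Finset.mem_univ, if_true]
    rw [add_comm]
    congr 1
    by_cases hk : k = x0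
    · simp [hk]
    · simp [hk]
  rw [e, dg_add, dg_even (d := (∑ i, d i) • Pi.single x0 1), mul_one] at h5
  · exact h5
  · intro i
    rw [Pi.smul_apply, smul_eq_mul]
    exact hd.mul_right _

end grp

theorem grp (h : S_PP) : S_GRP := by
  intro F _ n r Γ hr hs V _ _ _ ρ hdim g d hd hd0 hg
  have h1 := grp_main ρ hr hs hdim h d hd hd0
  rw [mem_ker'] at h1
  obtain ⟨h2, h3⟩ := h1
  have : g = ⟨dg d, h2⟩ := by
    apply Subtype.ext
    apply Units.ext
    rw [hg, dg_val]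
  rw [this]
  exact h3

end Pool.Agent.E8helper51.ZB3
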