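import Mathlib

/-!
# Sign changes and permutation matrices as units
-/

set_option autoImplicit false

namespace Pool.Agent.E8helper51.ZB3

open Matrix

variable {F : Type} [Ring F] {n : ℕ}

/-- the sign change with exponents `d` -/
def dg (d : Fin n → ℕ) : (Matrix (Fin n) (Fin n) F)ˣ where
  val := diagonal (fun i => (-1) ^ d i)
  inv := diagonal (fun i => (-1) ^ d i)
  val_inv := by
    rw [diagonal_mul_diagonal, ← diagonal_one]
    congr 1
    funext i
    rw [← pow_add]
    exact Even.neg_one_pow ⟨d i, rfl⟩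
  inv_val := by
    rw [diagonal_mul_diagonal, ← diagonal_one]
    congr 1
    funext i
    rw [← pow_add]
    exact Even.neg_one_pow ⟨d i, rfl⟩

theorem dg_val (d : Fin n → ℕ) :
    ((dg d : (Matrix (Fin n) (Fin n) F)ˣ) : Matrix (Fin n) (Fin n) F) =
      diagonal (fun i => (-1) ^ d i) := rfl

theorem dg_add (d e : Fin n → ℕ) : (dg (d + e) : (Matrix (Fin n) (Fin n) F)ˣ) = dg d * dg e := by
  apply Units.ext
  rw [Units.val_mul, dg_val, dg_val, dg_val, diagonal_mul_diagonal]
  congr 1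
  funext i
  rw [Pi.add_apply, pow_add]

theorem dg_zero : (dg (0 : Fin n → ℕ) : (Matrix (Fin n) (Fin n) F)ˣ) = 1 := by
  apply Units.ext
  rw [dg_val, Units.val_one, ← diagonal_one]
  congr 1
  funext i
  simp

theorem dg_even {d : Fin n → ℕ} (h : ∀ i, Even (d i)) :
    (dg d : (Matrix (Fin n) (Fin n) F)ˣ) = 1 := by
  apply Units.ext
  rw [dg_val, Units.val_one, ← diagonal_one]
  congr 1
  funext i
  exact (h i).neg_one_pow

theorem dg_nsmul (k : ℕ) (d : Fin n → ℕ) :
    (dg (k • d) : (Matrix (Fin n) (Fin n) F)ˣ) = dg d ^ k := by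
  induction k with
  | zero => rw [zero_smul, dg_zero, pow_zero]
  | succ k ih => rw [succ_nsmul, dg_add, ih, pow_succ]

/-- the permutation matrix sending `e_j` to `e_{σ j}` -/
def pm : Equiv.Perm (Fin n) →* (Matrix (Fin n) (Fin n) F)ˣ where
  toFun σ :=
    { val := (σ⁻¹).permMatrix F
      inv := σ.permMatrix F
      val_inv := by
        rw [← Matrix.permMatrix_mul, mul_inv_cancel, Matrix.permMatrix_one]
      inv_val := by
        rw [← Matrix.permMatrix_mul, inv_mul_cancel, Matrix.permMatrix_one] }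
  map_one' := by
    apply Units.ext
    show ((1 : Equiv.Perm (Fin n))⁻¹).permMatrix F = 1
    rw [inv_one, Matrix.permMatrix_one]
  map_mul' σ τ := by
    apply Units.ext
    show ((σ * τ)⁻¹).permMatrix F = (σ⁻¹).permMatrix F * (τ⁻¹).permMatrix F
    rw [_root_.mul_inv_rev, Matrix.permMatrix_mul]

theorem pm_val (σ : Equiv.Perm (Fin n)) :
    ((pm σ : (Matrix (Fin n) (Fin n) F)ˣ) : Matrix (Fin n) (Fin n) F) = (σ⁻¹).permMatrix F := rfl

theorem pm_conj (σ : Equiv.Perm (Fin n)) (d : Fin n → ℕ) :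
    (pm σ * dg d * (pm σ)⁻¹ : (Matrix (Fin n) (Fin n) F)ˣ) = dg (fun i => d (σ⁻¹ i)) := by
  rw [mul_inv_eq_iff_eq_mul]
  apply Units.ext
  rw [Units.val_mul, Units.val_mul, pm_val, dg_val, dg_val]
  ext i j
  rw [Matrix.mul_diagonal, Matrix.diagonal_mul]
  simp only [Equiv.Perm.permMatrix, PEquiv.toMatrix_apply, Equiv.toPEquiv_apply,
    Option.mem_some_iff]
  by_cases h : σ⁻¹ i = j
  · rw [h]; simp
  · rw [if_neg h, zero_mul, mul_zero]

end Pool.Agent.E8helper51.ZB3
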